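import Pool.Agent.TH279.Core.Taylor

/-!
# Separation of jets near the generic point
-/

set_option autoImplicit false
set_option linter.unusedSectionVars false
set_option linter.deprecated false

open PowerSeries

namespace Pool.Agent.TH279.Core

variable {C L : Type*} [Field C] [Field L] [CharZero L] [Algebra C L]

/-- rescaling `X ↦ x X`, `Y ↦ y Y` -/
noncomputable def rsc (x y : L) : BB L →+* BB L :=
  (PowerSeries.rescale (PowerSeries.C x)).comp (PowerSeries.map (PowerSeries.rescale y))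

theorem coeff_rsc (x y : L) (φ : BB L) (j i : ℕ) :
    coeff i (coeff j (rsc x y φ)) = x ^ j * y ^ i * coeff i (coeff j φ) := by
  rw [rsc, RingHom.comp_apply, coeff_rescale, coeff_map, ← map_pow, coeff_C_mul, coeff_rescale]
  ring

/-- the operator `x^j y^i j(j-1)..(j-α+1) i(i-1)..(i-β+1)` on coefficients -/
noncomputable def Sop (α β : ℕ) (x y : L) (φ : BB L) : BB L :=
  PowerSeries.mk fun j => PowerSeries.mk fun i =>
    ((j.descFactorial α : ℕ) : L) * ((i.descFactorial β : ℕ) : L) *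
      (x ^ j * y ^ i * coeff i (coeff j φ))

theorem coeff_Sop (α β : ℕ) (x y : L) (φ : BB L) (j i : ℕ) :
    coeff i (coeff j (Sop α β x y φ)) = ((j.descFactorial α : ℕ) : L) *
      ((i.descFactorial β : ℕ) : L) * (x ^ j * y ^ i * coeff i (coeff j φ)) := by
  rw [Sop, coeff_mk, coeff_mk]

theorem Sop_add (α β : ℕ) (x y : L) (φ ψ : BB L) :
    Sop α β x y (φ + ψ) = Sop α β x y φ + Sop α β x y ψ := by
  ext j i
  rw [map_add, map_add, coeff_Sop, coeff_Sop, coeff_Sop, map_add, map_add]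
  ring

theorem Sop_zero (α β : ℕ) (x y : L) : Sop α β x y (0 : BB L) = 0 := by
  ext j i
  rw [coeff_Sop, map_zero, map_zero, mul_zero, mul_zero]

/-- constants -/
noncomputable def cc (c : L) : BB L := PowerSeries.C (PowerSeries.C c)

theorem coeff_cc_mul (c : L) (φ : BB L) (j i : ℕ) :
    coeff i (coeff j (cc c * φ)) = c * coeff i (coeff j φ) := by
  rw [cc, coeff_C_mul, coeff_C_mul]

theorem Sop_cc (α β : ℕ) (x y c : L) (φ : BB L) :
    Sop α β x y (cc c * φ) = cc c * Sop α β x y φ := by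
  ext j i
  rw [coeff_cc_mul, coeff_Sop, coeff_Sop, coeff_cc_mul]
  ring

/-- the variable `Y` -/
noncomputable def YY : BB L := PowerSeries.C PowerSeries.X

theorem coeff_XY (α β : ℕ) (φ : BB L) (j i : ℕ) :
    coeff i (coeff j (PowerSeries.X ^ α * YY ^ β * φ)) =
      if α ≤ j ∧ β ≤ i then coeff (i - β) (coeff (j - α) φ) else 0 := by
  rw [mul_assoc, coeff_X_pow_mul']
  split_ifs with h1 h2 h2
  · rw [YY, ← map_pow, coeff_C_mul, coeff_X_pow_mul', if_pos h2.2]
  · rw [YY, ← map_pow, coeff_C_mul, coeff_X_pow_mul', if_neg (fun h => h2 ⟨h1, h⟩)]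
  · exact absurd h2.1 h1
  · rw [map_zero]

theorem XY_rsc {Dx Dy : Derivation C L L} (hc : ∀ z, Dx (Dy z) = Dy (Dx z)) (x y z : L)
    (α β : ℕ) :
    PowerSeries.X ^ α * YY ^ β * (cc (x ^ α * y ^ β) *
      rsc x y (EE Dx Dy ((⇑Dx)^[α] ((⇑Dy)^[β] z)))) = Sop α β x y (EE Dx Dy z) := by
  ext j i
  rw [coeff_XY, coeff_Sop]
  split_ifs with h
  · obtain ⟨j', rfl⟩ := Nat.exists_eq_add_of_le' h.1
    obtain ⟨i', rfl⟩ := Nat.exists_eq_add_of_le' h.2
    rw [Nat.add_sub_cancel, Nat.add_sub_cancel, coeff_cc_mul, coeff_rsc, coeff_EE_iter hc]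
    rw [pow_add, pow_add]
    ring
  · have : ((j.descFactorial α : ℕ) : L) * ((i.descFactorial β : ℕ) : L) = 0 := by
      by_cases h1 : α ≤ j
      · have h2 : i < β := by
          by_contra h3
          exact h ⟨h1, by omega⟩
        rw [Nat.descFactorial_eq_zero_iff_lt.2 h2]; simp
      · rw [Nat.descFactorial_eq_zero_iff_lt.2 (by omega)]; simp
    rw [this, zero_mul]

/-- leading coefficient of a product for the lexicographic order -/
theorem coeff_lex_mul {c S : BB L} {k l j i : ℕ} (hc1 : ∀ a < k, coeff a c = 0)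
    (hc2 : ∀ b < l, coeff b (coeff k c) = 0) (hS1 : ∀ a < j, coeff a S = 0)
    (hS2 : ∀ b < i, coeff b (coeff j S) = 0) :
    coeff (l + i) (coeff (k + j) (c * S)) = coeff l (coeff k c) * coeff i (coeff j S) := by
  classical
  have h1 : coeff (k + j) (c * S) = coeff k c * coeff j S := by
    rw [coeff_mul, Finset.sum_eq_single (k, j)]
    · rintro ⟨p, q⟩ hpq hne
      rw [Finset.HasAntidiagonal.mem_antidiagonal] at hpq
      simp only at hpq ⊢
      rcases lt_trichotomy p k with h | h | h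
      · rw [hc1 p h, zero_mul]
      · exact absurd (by rw [h]; congr 1; omega) hne
      · rw [hS1 q (by omega), mul_zero]
    · intro h
      exact absurd (Finset.HasAntidiagonal.mem_antidiagonal.2 (show (k, j).1 + (k, j).2 = k + j from rfl)) h
  rw [h1, coeff_mul, Finset.sum_eq_single (l, i)]
  · rintro ⟨p, q⟩ hpq hne
    rw [Finset.HasAntidiagonal.mem_antidiagonal] at hpq
    simp only at hpq ⊢
    rcases lt_trichotomy p l with h | h | h
    · rw [hc2 p h, zero_mul]
    · exact absurd (by rw [h]; congr 1; omega) hne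
    · rw [hS2 q (by omega), mul_zero]
  · intro h
    exact absurd (Finset.HasAntidiagonal.mem_antidiagonal.2 (show (l, i).1 + (l, i).2 = l + i from rfl)) h

/-- the orders of the derivatives -/
def rows (s : ℕ) : Finset (ℕ × ℕ) :=
  ((Finset.range s) ×ˢ (Finset.range s)).filter fun p => p.1 + p.2 < s

theorem mem_rows {s : ℕ} {p : ℕ × ℕ} : p ∈ rows s ↔ p.1 + p.2 < s := by
  simp only [rows, Finset.mem_filter, Finset.mem_product, Finset.mem_range]
  omega

theorem card_rows (s : ℕ) : (rows s).card = (s + 1).choose 2 := by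
  induction s with
  | zero => rfl
  | succ s ih =>
    have h1 : rows (s + 1) = rows s ∪ Finset.HasAntidiagonal.antidiagonal s := by
      ext p
      rw [Finset.mem_union, mem_rows, mem_rows, Finset.HasAntidiagonal.mem_antidiagonal]
      omega
    have h2 : Disjoint (rows s) (Finset.HasAntidiagonal.antidiagonal s) := by
      rw [Finset.disjoint_left]
      intro p hp hq
      rw [mem_rows] at hp
      rw [Finset.HasAntidiagonal.mem_antidiagonal] at hq
      omega
    rw [h1, Finset.card_union_of_disjoint h2, ih, Finset.Nat.card_antidiagonal,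
      Nat.choose_succ_succ' (s + 1) 1, Nat.choose_one_right, add_comm]

/-- **Separation of jets over the field of the generic point.** -/
theorem core_rows {Dx Dy : Derivation C L L} (hcomm : ∀ z, Dx (Dy z) = Dy (Dx z)) {n s : ℕ}
    {ι : Type} [Fintype ι] (V : Submodule C L) (jj ii : ι → ℕ) (G : ι → BB L) (x y : Fin n → L)
    (hx : ∀ q, x q ≠ 0) (hy : ∀ q, y q ≠ 0)
    (hspan : ∀ τ (P : BB L → Prop), (∀ z ∈ V, P (EE Dx Dy z)) → (P 0) →
      (∀ φ ψ, P φ → P ψ → P (φ + ψ)) → (∀ c φ, P φ → P (cc c * φ)) → P (G τ))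
    (h1 : ∀ τ, ∀ a < jj τ, coeff a (G τ) = 0)
    (h2 : ∀ τ, ∀ b < ii τ, coeff b (coeff (jj τ) (G τ)) = 0)
    (h3 : ∀ τ, coeff (ii τ) (coeff (jj τ) (G τ)) ≠ 0)
    (hcard : Fintype.card ι = n * (s + 1).choose 2)
    (hA : ∀ v : ι → L, (∀ (q : Fin n) (α β : ℕ), α + β < s →
      ∑ τ, (((jj τ).descFactorial α : ℕ) : L) * (((ii τ).descFactorial β : ℕ) : L) *
        (x q ^ jj τ * y q ^ ii τ) * v τ = 0) → v = 0)
    (c : Fin n → ℕ × ℕ → BB L)
    (hcV : ∀ z ∈ V, ∑ q, ∑ p ∈ rows s,
      c q p * rsc (x q) (y q) (EE Dx Dy ((⇑Dx)^[p.1] ((⇑Dy)^[p.2] z))) = 0) :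
    ∀ q, ∀ p ∈ rows s, c q p = 0 := by
  classical
  -- the rows as a finite type
  let R : Type := Fin n × rows s
  have hRcard : Fintype.card R = Fintype.card ι := by
    rw [hcard, Fintype.card_prod, Fintype.card_fin, Fintype.card_coe, card_rows]
  -- the rescaled coefficients
  let c' : R → BB L := fun r =>
    c r.1 r.2 * (PowerSeries.X ^ (s - r.2.1.1) * YY ^ (s - r.2.1.2) *
      cc ((x r.1 ^ r.2.1.1 * y r.1 ^ r.2.1.2)⁻¹))
  have hle : ∀ r : R, r.2.1.1 ≤ s ∧ r.2.1.2 ≤ s := by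
    intro r
    have := mem_rows.1 r.2.2
    omega
  -- the relations
  have hrel : ∀ z ∈ V, ∑ r : R, c' r * Sop r.2.1.1 r.2.1.2 (x r.1) (y r.1) (EE Dx Dy z) = 0 := by
    intro z hz
    have h4 := hcV z hz
    have h5 : ∑ r : R, c r.1 r.2 * rsc (x r.1) (y r.1)
        (EE Dx Dy ((⇑Dx)^[r.2.1.1] ((⇑Dy)^[r.2.1.2] z))) = 0 := by
      rw [← h4, Fintype.sum_prod_type]
      refine Finset.sum_congr rfl fun q _ => ?_
      exact (Finset.sum_coe_sort (rows s) fun p =>
        c q p * rsc (x q) (y q) (EE Dx Dy ((⇑Dx)^[p.1] ((⇑Dy)^[p.2] z))))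
    have h6 : PowerSeries.X ^ s * YY ^ s * ∑ r : R, c r.1 r.2 * rsc (x r.1) (y r.1)
        (EE Dx Dy ((⇑Dx)^[r.2.1.1] ((⇑Dy)^[r.2.1.2] z))) = 0 := by rw [h5, mul_zero]
    rw [← h6, Finset.mul_sum]
    refine Finset.sum_congr rfl fun r _ => ?_
    rw [← XY_rsc hcomm]
    have h7 : (PowerSeries.X : BB L) ^ s = PowerSeries.X ^ (s - r.2.1.1) *
        PowerSeries.X ^ r.2.1.1 := by rw [← pow_add, Nat.sub_add_cancel (hle r).1]
    have h8 : (YY : BB L) ^ s = YY ^ (s - r.2.1.2) * YY ^ r.2.1.2 := by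
      rw [← pow_add, Nat.sub_add_cancel (hle r).2]
    have h9 : cc ((x r.1 ^ r.2.1.1 * y r.1 ^ r.2.1.2)⁻¹) * cc (x r.1 ^ r.2.1.1 * y r.1 ^ r.2.1.2) =
        (1 : BB L) := by
      rw [cc, cc, ← map_mul, ← map_mul, inv_mul_cancel₀ (mul_ne_zero (pow_ne_zero _ (hx _))
        (pow_ne_zero _ (hy _))), map_one, map_one]
    rw [h7, h8]
    simp only [c']
    linear_combination (c r.1 r.2 * PowerSeries.X ^ (s - r.2.1.1) * YY ^ (s - r.2.1.2) *
      PowerSeries.X ^ r.2.1.1 * YY ^ r.2.1.2 * rsc (x r.1) (y r.1)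
        (EE Dx Dy ((⇑Dx)^[r.2.1.1] ((⇑Dy)^[r.2.1.2] z)))) * h9
  have hrelG : ∀ τ, ∑ r : R, c' r * Sop r.2.1.1 r.2.1.2 (x r.1) (y r.1) (G τ) = 0 := by
    intro τ
    refine hspan τ (fun φ => ∑ r : R, c' r * Sop r.2.1.1 r.2.1.2 (x r.1) (y r.1) φ = 0) hrel
      ?_ ?_ ?_
    · simp only [Sop_zero, mul_zero, Finset.sum_const_zero]
    · intro φ ψ hφ hψ
      simp only [Sop_add, mul_add, Finset.sum_add_distrib]
      rw [hφ, hψ, add_zero]
    · intro d φ hφ
      have : ∑ r : R, c' r * Sop r.2.1.1 r.2.1.2 (x r.1) (y r.1) (cc d * φ) =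
          cc d * ∑ r : R, c' r * Sop r.2.1.1 r.2.1.2 (x r.1) (y r.1) φ := by
        rw [Finset.mul_sum]
        refine Finset.sum_congr rfl fun r _ => ?_
        rw [Sop_cc]
        ring
      rw [this, hφ, mul_zero]
  -- all rescaled coefficients vanish
  have hc' : ∀ r, c' r = 0 := by
    by_contra hne
    push Not at hne
    obtain ⟨r0, hr0⟩ := hne
    have hex : ∃ k, ∃ r, coeff k (c' r) ≠ 0 := by
      by_contra h
      push Not at h
      exact hr0 (PowerSeries.ext fun k => by rw [h k r0, map_zero])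
    obtain ⟨r1, hr1⟩ := Nat.find_spec hex
    set k := Nat.find hex with hk
    have hkmin : ∀ r, ∀ a < k, coeff a (c' r) = 0 := by
      intro r a ha
      by_contra h
      exact Nat.find_min hex ha ⟨r, h⟩
    have hex2 : ∃ l, ∃ r, coeff l (coeff k (c' r)) ≠ 0 := by
      by_contra h
      push Not at h
      exact hr1 (PowerSeries.ext fun l => by rw [h l r1, map_zero])
    obtain ⟨r2, hr2⟩ := Nat.find_spec hex2
    set l := Nat.find hex2 with hl
    have hlmin : ∀ r, ∀ b < l, coeff b (coeff k (c' r)) = 0 := by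
      intro r b hb
      by_contra h
      exact Nat.find_min hex2 hb ⟨r, h⟩
    let lam : R → L := fun r => coeff l (coeff k (c' r))
    have hlam : ∀ τ, ∑ r : R, lam r * ((((jj τ).descFactorial r.2.1.1 : ℕ) : L) *
        (((ii τ).descFactorial r.2.1.2 : ℕ) : L) * (x r.1 ^ jj τ * y r.1 ^ ii τ)) = 0 := by
      intro τ
      have h4 := congrArg (fun φ => coeff (l + ii τ) (coeff (k + jj τ) φ)) (hrelG τ)
      simp only [map_sum, map_zero] at h4
      have h5 : ∀ r : R, coeff (l + ii τ) (coeff (k + jj τ)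
          (c' r * Sop r.2.1.1 r.2.1.2 (x r.1) (y r.1) (G τ))) =
          lam r * ((((jj τ).descFactorial r.2.1.1 : ℕ) : L) *
            (((ii τ).descFactorial r.2.1.2 : ℕ) : L) * (x r.1 ^ jj τ * y r.1 ^ ii τ)) *
            coeff (ii τ) (coeff (jj τ) (G τ)) := by
        intro r
        rw [coeff_lex_mul (hkmin r) (hlmin r), coeff_Sop]
        · simp only [lam]; ring
        · intro a ha
          ext i
          rw [coeff_Sop, h1 τ a ha, map_zero, mul_zero, mul_zero]
        · intro b hb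
          rw [coeff_Sop, h2 τ b hb, mul_zero, mul_zero]
      rw [Finset.sum_congr rfl fun r _ => h5 r, ← Finset.sum_mul] at h4
      exact (mul_eq_zero.1 h4).resolve_right (h3 τ)
    -- the square matrix
    let e : R ≃ ι := Fintype.equivOfCardEq hRcard
    let M : Matrix R R L := fun r r' => (((jj (e r')).descFactorial r.2.1.1 : ℕ) : L) *
        (((ii (e r')).descFactorial r.2.1.2 : ℕ) : L) * (x r.1 ^ jj (e r') * y r.1 ^ ii (e r'))
    have hinj : Function.Injective M.mulVec := by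
      intro v w hvw
      have h4 : M.mulVec (v - w) = 0 := by rw [Matrix.mulVec_sub, hvw, sub_self]
      have h5 := hA (fun τ => (v - w) (e.symm τ)) (fun q α β hαβ => by
        have h6 := congrFun h4 (q, ⟨(α, β), mem_rows.2 hαβ⟩)
        rw [Matrix.mulVec, dotProduct, Pi.zero_apply] at h6
        rw [← h6, ← Equiv.sum_comp e]
        refine Finset.sum_congr rfl fun r _ => ?_
        simp only [M, Equiv.symm_apply_apply])
      funext r
      have h6 := congrFun h5 (e r)
      simp only [Equiv.symm_apply_apply, Pi.sub_apply, Pi.zero_apply] at h6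
      exact sub_eq_zero.1 h6
    have hunit := Matrix.mulVec_injective_iff_isUnit.1 hinj
    have hvinj := Matrix.vecMul_injective_iff_isUnit.2 hunit
    have h7 : lam = 0 := by
      apply hvinj
      show Matrix.vecMul lam M = Matrix.vecMul 0 M
      rw [Matrix.zero_vecMul]
      funext r'
      rw [Matrix.vecMul, dotProduct, Pi.zero_apply]
      exact hlam (e r')
    exact hr2 (congrFun h7 r2)
  intro q p hp
  have h4 := hc' (q, ⟨p, hp⟩)
  simp only [c'] at h4
  have hX : (PowerSeries.X : BB L) ≠ 0 := PowerSeries.X_ne_zero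
  have hY : (YY : BB L) ≠ 0 := by
    intro h
    have h5 := congrArg (fun φ => coeff 1 (coeff 0 φ)) h
    simp [YY] at h5
  have hcc : cc ((x q ^ p.1 * y q ^ p.2)⁻¹) ≠ (0 : BB L) := by
    intro h
    have h5 := congrArg (fun φ => coeff 0 (coeff 0 φ)) h
    simp only [cc, coeff_zero_C, map_zero] at h5
    exact inv_ne_zero (mul_ne_zero (pow_ne_zero _ (hx q)) (pow_ne_zero _ (hy q))) h5
  exact (mul_eq_zero.1 h4).resolve_right
    (mul_ne_zero (mul_ne_zero (pow_ne_zero _ hX) (pow_ne_zero _ hY)) hcc)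

end Pool.Agent.TH279.Core
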