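import Pool.Agent.TH279.Core.Main
import Pool.Agent.TH978.N4.Rows
import Pool.Agent.TH880.NB.Pt

/-!
# Separation of jets near the generic point: the output
-/

set_option autoImplicit false
set_option linter.unusedSectionVars false
set_option linter.deprecated false

open PowerSeries

namespace Pool.Agent.TH279.Core

open Pool.Agent.TH176.Nag

section span

variable {C L : Type*} [Field C] [Field L] [CharZero L] [Algebra C L]

theorem smul_BB (c : L) (φ : BB L) : c • φ = cc c * φ := by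
  ext j i
  rw [coeff_cc_mul, PowerSeries.coeff_smul]
  rfl

/-- the span of the expansions -/
noncomputable def WW (Dx Dy : Derivation C L L) (R : Submodule C L) : Submodule L (BB L) :=
  Submodule.span L (EE Dx Dy '' (R : Set L))

theorem WW_induct {Dx Dy : Derivation C L L} {R : Submodule C L} {G : BB L} (hG : G ∈ WW Dx Dy R)
    (P : BB L → Prop) (h1 : ∀ z ∈ R, P (EE Dx Dy z)) (h2 : P 0)
    (h3 : ∀ φ ψ, P φ → P ψ → P (φ + ψ)) (h4 : ∀ c φ, P φ → P (cc c * φ)) : P G := by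
  unfold WW at hG
  induction hG using Submodule.span_induction with
  | mem x hx => obtain ⟨z, hz, rfl⟩ := hx; exact h1 z hz
  | zero => exact h2
  | add x y _ _ hx hy => exact h3 x y hx hy
  | smul a x _ hx => rw [smul_BB]; exact h4 a x hx

theorem WW_mul {Dx Dy : Derivation C L L} {R₁ R₂ R₃ : Submodule C L}
    (hR : ∀ x ∈ R₁, ∀ y ∈ R₂, x * y ∈ R₃) {G H : BB L} (hG : G ∈ WW Dx Dy R₁)
    (hH : H ∈ WW Dx Dy R₂) : G * H ∈ WW Dx Dy R₃ := by
  refine WW_induct hG (fun G => G * H ∈ WW Dx Dy R₃) (fun z hz => ?_) (by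
    simp only [zero_mul]; exact Submodule.zero_mem _) (fun φ ψ h1 h2 => by
    rw [add_mul]; exact Submodule.add_mem _ h1 h2) (fun c φ h1 => by
    rw [mul_assoc, ← smul_BB]; exact Submodule.smul_mem _ _ h1)
  refine WW_induct hH (fun H => EE Dx Dy z * H ∈ WW Dx Dy R₃) (fun w hw => ?_) (by
    simp only [mul_zero]; exact Submodule.zero_mem _) (fun φ ψ h1 h2 => by
    rw [mul_add]; exact Submodule.add_mem _ h1 h2) (fun c φ h1 => by
    rw [mul_left_comm, ← smul_BB]; exact Submodule.smul_mem _ _ h1)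
  rw [← map_mul]
  exact Submodule.subset_span ⟨_, hR z hz w hw, rfl⟩

theorem coeff_zero_EE (Dx Dy : Derivation C L L) (z : L) : coeff 0 (EE Dx Dy z) = rho Dy z := by
  rw [coeff_EE]
  simp

/-- lifting of a row -/
theorem WW_lift {Dx Dy : Derivation C L L} {R : Submodule C L} {G : PowerSeries L}
    (hG : G ∈ Submodule.span L (⇑(rho Dy) '' (R : Set L))) : ∃ H ∈ WW Dx Dy R, coeff 0 H = G := by
  induction hG using Submodule.span_induction with
  | mem x hx =>
    obtain ⟨z, hz, rfl⟩ := hx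
    exact ⟨EE Dx Dy z, Submodule.subset_span ⟨z, hz, rfl⟩, coeff_zero_EE Dx Dy z⟩
  | zero => exact ⟨0, Submodule.zero_mem _, map_zero _⟩
  | add x y _ _ hx hy =>
    obtain ⟨H, hH, rfl⟩ := hx
    obtain ⟨H', hH', rfl⟩ := hy
    exact ⟨H + H', Submodule.add_mem _ hH hH', map_add _ _ _⟩
  | smul c x _ hx =>
    obtain ⟨H, hH, rfl⟩ := hx
    refine ⟨c • H, Submodule.smul_mem _ _ hH, ?_⟩
    rw [smul_BB, cc, coeff_C_mul]
    ext i
    rw [coeff_C_mul, PowerSeries.coeff_smul]
    rfl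

/-- the section vanishing on the member of the pencil through the generic point -/
theorem theta {Dx Dy : Derivation C L L} {a b g : L} (hab : a = g * b) (h1 : Dx g = 1)
    (h2 : Dy g = 0) : EE Dx Dy a - cc g * EE Dx Dy b = PowerSeries.X * EE Dx Dy b := by
  have h3 : EE Dx Dy g = cc g + PowerSeries.X := by
    rw [EE, RingHom.comp_apply, rho_one Dx h1, map_add, PowerSeries.map_C, PowerSeries.map_X,
      rho_const Dy h2]
    rfl
  rw [hab, map_mul, h3]
  ring

/-- **the elements of the rows** -/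
theorem exists_row {Dx Dy : Derivation C L L} {a b g : L} (hab : a = g * b) (hb : b ≠ 0)
    (h1 : Dx g = 1) (h2 : Dy g = 0) (R : ℕ → Submodule C L)
    (hR : ∀ m m' : ℕ, ∀ x ∈ R m, ∀ y ∈ R m', x * y ∈ R (m + m')) {k : ℕ} (ha : a ∈ R k)
    (hbk : b ∈ R k) (l : ℕ) : ∀ (m i : ℕ) (H : BB L), H ∈ WW Dx Dy (R m) →
    (∀ i' < i, coeff i' (coeff 0 H) = 0) → coeff i (coeff 0 H) ≠ 0 →
    ∃ G ∈ WW Dx Dy (R (m + k * l)), (∀ a' < l, coeff a' G = 0) ∧
      (∀ i' < i, coeff i' (coeff l G) = 0) ∧ coeff i (coeff l G) ≠ 0 := by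
  induction l with
  | zero =>
    intro m i H hH h3 h4
    exact ⟨H, by rwa [Nat.mul_zero, Nat.add_zero], fun a' ha' => absurd ha' (Nat.not_lt_zero _),
      h3, h4⟩
  | succ l ih =>
    intro m i H hH h3 h4
    obtain ⟨G, hG, h5, h6, h7⟩ := ih m i H hH h3 h4
    have hθ : EE Dx Dy a - cc g * EE Dx Dy b ∈ WW Dx Dy (R k) := by
      refine Submodule.sub_mem _ (Submodule.subset_span ⟨a, ha, rfl⟩) ?_
      rw [← smul_BB]
      exact Submodule.smul_mem _ _ (Submodule.subset_span ⟨b, hbk, rfl⟩)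
    have h8 := WW_mul (hR _ _) hG hθ
    rw [theta hab h1 h2] at h8
    have h9 : m + k * (l + 1) = m + k * l + k := by ring
    rw [← h9] at h8
    refine ⟨_, h8, ?_⟩
    rw [show G * (PowerSeries.X * EE Dx Dy b) = PowerSeries.X * (EE Dx Dy b * G) by ring]
    have hE0 : coeff 0 (coeff 0 (EE Dx Dy b)) = b := by
      rw [coeff_zero_EE, rho_apply, coeff_zero_rhoF]
    have hE : ∀ a' < 0, coeff a' (EE Dx Dy b) = 0 := fun a' ha' => absurd ha' (Nat.not_lt_zero _)
    have hE' : ∀ a' < 0, coeff a' (coeff 0 (EE Dx Dy b)) = 0 :=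
      fun a' ha' => absurd ha' (Nat.not_lt_zero _)
    refine ⟨?_, ?_, ?_⟩
    · intro a' ha'
      rcases a' with _ | a'
      · rw [coeff_zero_X_mul]
      · rw [coeff_succ_X_mul, coeff_mul]
        refine Finset.sum_eq_zero fun p hp => ?_
        rw [Finset.HasAntidiagonal.mem_antidiagonal] at hp
        rw [h5 p.2 (by omega), mul_zero]
    · intro i' hi'
      rw [coeff_succ_X_mul]
      have h10 : coeff l (EE Dx Dy b * G) = coeff 0 (EE Dx Dy b) * coeff l G := by
        rw [coeff_mul, Finset.sum_eq_single (0, l)]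
        · rintro ⟨p, q⟩ hpq hne
          rw [Finset.HasAntidiagonal.mem_antidiagonal] at hpq
          simp only at hpq ⊢
          rcases Nat.lt_or_ge q l with h | h
          · rw [h5 q h, mul_zero]
          · exact absurd (by
              rw [show p = 0 by omega, show q = l by omega]) hne
        · intro h
          exact absurd (Finset.HasAntidiagonal.mem_antidiagonal.2 (Nat.zero_add l)) h
      rw [h10, coeff_mul]
      refine Finset.sum_eq_zero fun p hp => ?_
      rw [Finset.HasAntidiagonal.mem_antidiagonal] at hp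
      rw [h6 p.2 (by omega), mul_zero]
    · rw [coeff_succ_X_mul]
      have h10 := coeff_lex_mul (k := 0) (l := 0) hE hE' h5 h6
      rw [Nat.zero_add, Nat.zero_add, hE0] at h10
      rw [h10]
      exact mul_ne_zero hb h7

end span

section toric

variable {K : Type*} [Field K]

/-- a submodule containing all products of descending products contains `PF K w` -/
theorem PF_le_of_desc2 {w : ℕ} {V : Submodule K (K × K → K)}
    (hV : ∀ a b : ℕ, a + b < w → (fun u : K × K => (∏ t ∈ Finset.range a, (u.1 - (t : K))) *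
      ∏ t ∈ Finset.range b, (u.2 - (t : K))) ∈ V) : PF K w ≤ V := by
  refine PF_le_of_desc fun a b hab => ?_
  have key : ∀ c a b : ℕ, a + b + c < w →
      (fun u : K × K => u.1 ^ c * ((∏ t ∈ Finset.range a, (u.1 - (t : K))) *
        ∏ t ∈ Finset.range b, (u.2 - (t : K)))) ∈ V := by
    intro c
    induction c with
    | zero => intro a b h; simpa using hV a b (by omega)
    | succ c ih =>
      intro a b h
      have h1 := ih (a + 1) b (by omega)
      have h2 := V.smul_mem (a : K) (ih a b (by omega))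
      convert V.add_mem h1 h2 using 2
      simp only [Pi.smul_apply, smul_eq_mul, Pi.add_apply]
      rw [Finset.prod_range_succ]; ring
  simpa using key a 0 b (by omega)

theorem cast_descFactorial (n k : ℕ) :
    ((n.descFactorial k : ℕ) : K) = ∏ t ∈ Finset.range k, ((n : K) - (t : K)) := by
  rw [← descPochhammer_eval_eq_descFactorial, descPochhammer_eval_eq_prod_range]

/-- the square matrix of a toric input has no kernel -/
theorem kernel_of_Emp {n s : ℕ} {T : Finset (ℤ × ℤ)} (hT : ∀ t ∈ T, 0 ≤ t.1 ∧ 0 ≤ t.2)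
    {x y : Fin n → K}
    (h : ∀ f : (ℤ × ℤ) →₀ K, (↑f.support : Set (ℤ × ℤ)) ⊆ (↑T : Set (ℤ × ℤ)) →
      (∀ q, LM f (x q) (y q) s) → f = 0)
    (v : T → K) (hv : ∀ (q : Fin n) (α β : ℕ), α + β < s →
      ∑ τ : T, (((τ : ℤ × ℤ).2.toNat.descFactorial α : ℕ) : K) *
        (((τ : ℤ × ℤ).1.toNat.descFactorial β : ℕ) : K) *
        (y q ^ (τ : ℤ × ℤ).2.toNat * x q ^ (τ : ℤ × ℤ).1.toNat) * v τ = 0) : v = 0 := by
  classical
  let g : ℤ × ℤ → K := fun m => if hm : m ∈ T then v ⟨m, hm⟩ else 0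
  let f : (ℤ × ℤ) →₀ K := Finsupp.onFinset T g (by
    intro m hm
    by_contra hn
    exact hm (dif_neg hn))
  have hfv : ∀ m : T, f m = v m := fun m => dif_pos m.2
  have hfT : (↑f.support : Set (ℤ × ℤ)) ⊆ (↑T : Set (ℤ × ℤ)) := by
    intro m hm
    by_contra hn
    have : f m ≠ 0 := Finsupp.mem_support_iff.1 hm
    exact this (dif_neg hn)
  have hf0 : f = 0 := by
    refine h f hfT fun q => ?_
    let V : Submodule K (K × K → K) :=
      { carrier := {P | pr f (x q) (y q) P = 0}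
        add_mem' := fun {P Q} hP hQ => by
          show pr f (x q) (y q) (P + Q) = 0
          rw [pr_add_right, show pr f (x q) (y q) P = 0 from hP,
            show pr f (x q) (y q) Q = 0 from hQ, add_zero]
        zero_mem' := by
          show pr f (x q) (y q) 0 = 0
          have := pr_smul_right f (x q) (y q) 0 (0 : K × K → K)
          rw [zero_smul, zero_mul] at this
          exact this
        smul_mem' := fun c P hP => by
          show pr f (x q) (y q) (c • P) = 0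
          rw [pr_smul_right, show pr f (x q) (y q) P = 0 from hP, mul_zero] }
    have hle : PF K s ≤ V := by
      refine PF_le_of_desc2 fun a b hab => ?_
      show pr f (x q) (y q) _ = 0
      have h1 := hv q b a (by omega)
      rw [← h1]
      unfold pr
      rw [Finsupp.sum_of_support_subset f (s := T) (fun m hm => hfT hm) _
        (by intro m _; ring), ← Finset.sum_coe_sort]
      refine Finset.sum_congr rfl fun τ _ => ?_
      obtain ⟨ht1, ht2⟩ := hT τ τ.2
      rw [hfv τ, cast_descFactorial, cast_descFactorial]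
      have e1 : x q ^ (τ : ℤ × ℤ).1 = x q ^ (τ : ℤ × ℤ).1.toNat := by
        conv_lhs => rw [← Int.toNat_of_nonneg ht1]
        rw [zpow_natCast]
      have e2 : y q ^ (τ : ℤ × ℤ).2 = y q ^ (τ : ℤ × ℤ).2.toNat := by
        conv_lhs => rw [← Int.toNat_of_nonneg ht2]
        rw [zpow_natCast]
      have e3 : (((τ : ℤ × ℤ).1.toNat : ℕ) : K) = ((τ : ℤ × ℤ).1 : K) := by
        conv_rhs => rw [← Int.toNat_of_nonneg ht1]
        rw [Int.cast_natCast]
      have e4 : (((τ : ℤ × ℤ).2.toNat : ℕ) : K) = ((τ : ℤ × ℤ).2 : K) := by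
        conv_rhs => rw [← Int.toNat_of_nonneg ht2]
        rw [Int.cast_natCast]
      rw [e1, e2, e3, e4]
      ring
    exact fun P hP => hle hP
  funext τ
  rw [← hfv τ, hf0]
  rfl

end toric

theorem sum_rows {M : Type*} [AddCommMonoid M] (s : ℕ) (F : ℕ → ℕ → M) :
    ∑ a ∈ Finset.range s, ∑ b ∈ Finset.range (s - a), F a b = ∑ p ∈ rows s, F p.1 p.2 := by
  classical
  rw [Finset.sum_sigma']
  refine Finset.sum_nbij' (fun x => (x.1, x.2)) (fun p => ⟨p.1, p.2⟩) ?_ ?_ ?_ ?_ ?_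
  · rintro ⟨a, b⟩ h
    simp only [Finset.mem_sigma, Finset.mem_range] at h
    rw [mem_rows]
    simp only
    omega
  · rintro ⟨a, b⟩ h
    rw [mem_rows] at h
    simp only [Finset.mem_sigma, Finset.mem_range] at h ⊢
    omega
  · rintro ⟨a, b⟩ _; rfl
  · rintro ⟨a, b⟩ _; rfl
  · rintro ⟨a, b⟩ _; rfl

/-- **The core of N4.** -/
theorem core {FF : Type} [Field FF] [Algebra ℂ FF] {κ : Type} [Field κ] [Algebra κ FF]
    [Algebra ℂ κ] [IsScalarTower ℂ κ FF] (Dx Dy : Derivation ℂ FF FF)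
    (hcomm : ∀ z, Dx (Dy z) = Dy (Dx z)) {a b g : FF} (hab : a = g * b) (hb : b ≠ 0)
    (h1 : Dx g = 1) (h2 : Dy g = 0) (hκ : ∀ z, Dy z = 0 → z ∈ (algebraMap κ FF).range)
    (R : ℕ → Submodule ℂ FF) [∀ m, Module.Finite ℂ (R m)]
    (hR : ∀ m m' : ℕ, ∀ x ∈ R m, ∀ y ∈ R m', x * y ∈ R (m + m')) {k : ℕ} (ha : a ∈ R k)
    (hbk : b ∈ R k) (n s m : ℕ) (T : Finset (ℤ × ℤ)) (hTc : T.card = n * (s + 1).choose 2)
    (hTE : Emp (fun _ : Fin n => s) (T : Set (ℤ × ℤ)))
    (hT : ∀ p ∈ T, 0 ≤ p.1 ∧ 0 ≤ p.2 ∧ (k : ℤ) * p.2 ≤ m ∧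
      p.1 < Module.finrank κ (Submodule.span κ (R (m - k * p.2.toNat) : Set FF))) :
    ∃ (Om : Type) (_ : Field Om) (_ : Algebra ℂ Om) (Psi : Fin n → FF →ₐ[ℂ] Om),
      ∀ c : Fin n → ℕ → ℕ → Om, (∀ f ∈ R m, ∑ q, ∑ α ∈ Finset.range s,
        ∑ β ∈ Finset.range (s - α), c q α β * Psi q ((⇑Dx)^[α] ((⇑Dy)^[β] f)) = 0) →
        ∀ q α β, α + β < s → c q α β = 0 := by
  classical
  have : CharZero FF := charZero_of_injective_algebraMap (algebraMap ℂ FF).injective
  have hTpos : ∀ t ∈ (T : Set (ℤ × ℤ)), 0 ≤ t.1 ∧ 0 ≤ t.2 := fun t ht =>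
    ⟨(hT t ht).1, (hT t ht).2.1⟩
  obtain ⟨x, y, hx, hy, hE⟩ := Pool.Agent.TH880.NB.Emp_point T.finite_toSet hTpos hTE FF
  -- the rows
  have hrow : ∀ τ : T, ∃ G ∈ WW Dx Dy (R m),
      (∀ a' < (τ : ℤ × ℤ).2.toNat, coeff a' G = 0) ∧
      (∀ i' < (τ : ℤ × ℤ).1.toNat, coeff i' (coeff (τ : ℤ × ℤ).2.toNat G) = 0) ∧
      coeff (τ : ℤ × ℤ).1.toNat (coeff (τ : ℤ × ℤ).2.toNat G) ≠ 0 := by
    intro τ
    obtain ⟨ht1, ht2, ht3, ht4⟩ := hT τ τ.2
    have hi : (τ : ℤ × ℤ).1.toNat <
        Module.finrank κ (Submodule.span κ (R (m - k * (τ : ℤ × ℤ).2.toNat) : Set FF)) := by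
      omega
    obtain ⟨G0, hG0, -, r, hr⟩ := Pool.Agent.TH978.N4.rows_lead Dy hκ
      (ρ := ⇑(rho Dy)) (fun z => coeff_zero_rhoF Dy z) (fun z n => coeff_succ_rhoF' Dy z n)
      (R (m - k * (τ : ℤ × ℤ).2.toNat)) hi
    obtain ⟨H, hH, hH0⟩ := WW_lift (Dx := Dx) hG0
    have h3 : ∀ i' < (τ : ℤ × ℤ).1.toNat, coeff i' (coeff 0 H) = 0 := by
      intro i' hi'
      rw [hH0, hr, coeff_X_pow_mul', if_neg (by omega)]
    have h4 : coeff (τ : ℤ × ℤ).1.toNat (coeff 0 H) ≠ 0 := by
      rw [hH0, hr, coeff_X_pow_mul', if_pos le_rfl, Nat.sub_self, map_add, coeff_zero_X_mul,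
        add_zero, coeff_zero_one]
      exact one_ne_zero
    obtain ⟨G, hG, h5⟩ := exists_row hab hb h1 h2 R hR ha hbk (τ : ℤ × ℤ).2.toNat _ _ H hH h3 h4
    have h6 : m - k * (τ : ℤ × ℤ).2.toNat + k * (τ : ℤ × ℤ).2.toNat = m := by
      apply Nat.sub_add_cancel
      have h7 : ((k * (τ : ℤ × ℤ).2.toNat : ℕ) : ℤ) ≤ m := by
        push_cast
        rw [Int.toNat_of_nonneg ht2]
        exact ht3
      exact_mod_cast h7
    rw [h6] at hG
    exact ⟨G, hG, h5⟩
  choose G hGW hG1 hG2 hG3 using hrow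
  have hmain := core_rows (n := n) (s := s) hcomm (R m) (fun τ : T => (τ : ℤ × ℤ).2.toNat)
    (fun τ : T => (τ : ℤ × ℤ).1.toNat) G y x hy hx
    (fun τ P q1 q2 q3 q4 => WW_induct (hGW τ) P q1 q2 q3 q4) hG1 hG2 hG3
    (by rw [Fintype.card_coe, hTc])
    (fun v hv => kernel_of_Emp (fun t ht => hTpos t ht) (fun f hf hLM => hE f hf hLM) v hv)
  -- the field
  let Om : Type := FractionRing (BB FF)
  have hconst : ∀ (D : Derivation ℂ FF FF) (r : ℂ), rho D (algebraMap ℂ FF r) =
      PowerSeries.C (algebraMap ℂ FF r) := fun D r => rho_const D (D.map_algebraMap r)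
  have hEc : ∀ r : ℂ, EE Dx Dy (algebraMap ℂ FF r) = cc (algebraMap ℂ FF r) := by
    intro r
    rw [EE, RingHom.comp_apply, hconst, PowerSeries.map_C, hconst]
    rfl
  have hrc : ∀ (x y : FF) (r : ℂ), rsc x y (cc (algebraMap ℂ FF r)) =
      cc (algebraMap ℂ FF r) := by
    intro x y r
    ext j i
    rw [coeff_rsc, cc, coeff_C]
    split_ifs with hj
    · rw [coeff_C]
      split_ifs with hi
      · rw [hj, hi, pow_zero, pow_zero, one_mul, one_mul]
      · rw [mul_zero]
    · rw [map_zero, mul_zero]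
  let Psi : Fin n → FF →ₐ[ℂ] Om := fun q =>
    { toRingHom := (algebraMap (BB FF) Om).comp ((rsc (y q) (x q)).comp (EE Dx Dy))
      commutes' := fun r => by
        show algebraMap (BB FF) Om (rsc (y q) (x q) (EE Dx Dy (algebraMap ℂ FF r))) = _
        rw [hEc, hrc, IsScalarTower.algebraMap_apply ℂ (BB FF) Om, PowerSeries.algebraMap_apply,
          PowerSeries.algebraMap_apply]
        rfl }
  refine ⟨Om, inferInstance, inferInstance, Psi, fun c hc q α β hαβ => ?_⟩
  -- common denominator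
  obtain ⟨d, hd⟩ := IsLocalization.exist_integer_multiples_of_finite (nonZeroDivisors (BB FF))
    (fun p : Fin n × rows s => c p.1 p.2.1.1 p.2.1.2)
  choose c' hc' using hd
  let c'' : Fin n → ℕ × ℕ → BB FF := fun q p => if hp : p ∈ rows s then c' (q, ⟨p, hp⟩) else 0
  have hc'' : ∀ q p, p ∈ rows s →
      algebraMap (BB FF) Om (c'' q p) = algebraMap (BB FF) Om d * c q p.1 p.2 := by
    intro q p hp
    have h3 := hc' (q, ⟨p, hp⟩)
    simp only [c'']
    rw [dif_pos hp, h3, Algebra.smul_def]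
  have hinj : Function.Injective (algebraMap (BB FF) Om) := IsFractionRing.injective (BB FF) Om
  have h3 := hmain c'' (fun z hz => by
    apply hinj
    rw [map_zero, map_sum]
    have h4 := hc z hz
    have h5 : algebraMap (BB FF) Om d * ∑ q, ∑ α ∈ Finset.range s,
        ∑ β ∈ Finset.range (s - α), c q α β * Psi q ((⇑Dx)^[α] ((⇑Dy)^[β] z)) = 0 := by
      rw [h4, mul_zero]
    rw [← h5, Finset.mul_sum]
    refine Finset.sum_congr rfl fun q _ => ?_
    rw [sum_rows s fun α β => c q α β * Psi q ((⇑Dx)^[α] ((⇑Dy)^[β] z)), map_sum, Finset.mul_sum]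
    refine Finset.sum_congr rfl fun p hp => ?_
    rw [map_mul, hc'' q p hp]
    show _ * _ * algebraMap (BB FF) Om (rsc (y q) (x q) (EE Dx Dy _)) =
      _ * (_ * algebraMap (BB FF) Om (rsc (y q) (x q) (EE Dx Dy _)))
    ring) q (α, β) (mem_rows.2 hαβ)
  have h4 := hc'' q (α, β) (mem_rows.2 hαβ)
  rw [h3, map_zero] at h4
  have h5 : algebraMap (BB FF) Om d ≠ 0 := by
    intro h
    exact nonZeroDivisors.coe_ne_zero d (hinj (by rw [h, map_zero]))
  exact (mul_eq_zero.1 h4.symm).resolve_left h5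

end Pool.Agent.TH279.Core
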