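import Mathlib

/-!
# Taylor expansion at the generic point

`D` a derivation of a field `L` of characteristic zero: `rho D z = ∑ Dⁿ z / n! Xⁿ` is a ring
homomorphism.  For commuting derivations `Dx`, `Dy`, `EE Dx Dy : L →+* L⟦Y⟧⟦X⟧`.
-/

set_option autoImplicit false
set_option linter.unusedSectionVars false
set_option linter.deprecated false

open PowerSeries

namespace Pool.Agent.TH279.Core

variable {C L : Type*} [Field C] [Field L] [CharZero L] [Algebra C L]

theorem D_nat (D : Derivation C L L) (n : ℕ) : D (n : L) = 0 := by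
  have := D.map_natCast n
  exact this

theorem D_inv_nat (D : Derivation C L L) (n : ℕ) : D ((n : L)⁻¹) = 0 := by
  rcases Nat.eq_zero_or_pos n with rfl | hn
  · simp
  · have h1 : (n : L) ≠ 0 := by exact_mod_cast hn.ne'
    have h2 := D.leibniz (n : L) ((n : L)⁻¹)
    rw [mul_inv_cancel₀ h1, D_nat, smul_zero, add_zero, D.map_one_eq_zero, smul_eq_mul] at h2
    exact (mul_eq_zero.1 h2.symm).resolve_left h1

theorem D_inv_mul (D : Derivation C L L) (n : ℕ) (z : L) : D ((n : L)⁻¹ * z) = (n : L)⁻¹ * D z := by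
  rw [D.leibniz, D_inv_nat, smul_zero, add_zero, smul_eq_mul]

theorem D_iter_add (D : Derivation C L L) (k : ℕ) (z w : L) :
    (⇑D)^[k] (z + w) = (⇑D)^[k] z + (⇑D)^[k] w := by
  induction k generalizing z w with
  | zero => rfl
  | succ k ih => rw [Function.iterate_succ_apply, map_add, ih]; rfl

theorem D_iter_smul (D : Derivation C L L) (k : ℕ) (c : C) (z : L) :
    (⇑D)^[k] (c • z) = c • (⇑D)^[k] z := by
  induction k generalizing z with
  | zero => rfl
  | succ k ih => rw [Function.iterate_succ_apply, D.map_smul, ih]; rfl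

theorem D_iter_inv_mul (D : Derivation C L L) (k n : ℕ) (z : L) :
    (⇑D)^[k] ((n : L)⁻¹ * z) = (n : L)⁻¹ * (⇑D)^[k] z := by
  induction k generalizing z with
  | zero => rfl
  | succ k ih => rw [Function.iterate_succ_apply, D_inv_mul, ih]; rfl

/-- the Taylor series -/
noncomputable def rhoF (D : Derivation C L L) (z : L) : PowerSeries L :=
  PowerSeries.mk fun n => ((n.factorial : ℕ) : L)⁻¹ * (⇑D)^[n] z

theorem coeff_rhoF (D : Derivation C L L) (z : L) (n : ℕ) :
    coeff n (rhoF D z) = ((n.factorial : ℕ) : L)⁻¹ * (⇑D)^[n] z := by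
  rw [rhoF, coeff_mk]

theorem coeff_succ_rhoF (D : Derivation C L L) (z : L) (n : ℕ) :
    ((n : L) + 1) * coeff (n + 1) (rhoF D z) = coeff n (rhoF D (D z)) := by
  rw [coeff_rhoF, coeff_rhoF, Nat.factorial_succ, Function.iterate_succ_apply]
  push_cast
  have h1 : (n : L) + 1 ≠ 0 := by exact_mod_cast Nat.succ_ne_zero n
  rw [mul_inv, ← mul_assoc, ← mul_assoc, mul_inv_cancel₀ h1, one_mul]

theorem coeff_succ_rhoF' (D : Derivation C L L) (z : L) (n : ℕ) :
    ((n : L) + 1) * coeff (n + 1) (rhoF D z) = D (coeff n (rhoF D z)) := by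
  rw [coeff_succ_rhoF, coeff_rhoF, coeff_rhoF, D_inv_mul, ← Function.iterate_succ_apply,
    Function.iterate_succ_apply']

theorem rhoF_add (D : Derivation C L L) (z w : L) : rhoF D (z + w) = rhoF D z + rhoF D w := by
  ext n
  rw [map_add, coeff_rhoF, coeff_rhoF, coeff_rhoF, D_iter_add, mul_add]

theorem coeff_zero_rhoF (D : Derivation C L L) (z : L) : coeff 0 (rhoF D z) = z := by
  rw [coeff_rhoF]; simp

/-- the formal derivative of a product -/
theorem coeff_succ_mul (f g : PowerSeries L) (n : ℕ) :
    ((n : L) + 1) * coeff (n + 1) (f * g) =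
      coeff n (derivativeFun f * g + f * derivativeFun g) := by
  have h1 : coeff n (derivativeFun (f * g)) = coeff (n + 1) (f * g) * (n + 1) :=
    coeff_derivativeFun _ _
  rw [derivativeFun_mul] at h1
  rw [mul_comm, ← h1]
  congr 1
  rw [smul_eq_mul, smul_eq_mul]
  ring

theorem derivativeFun_rhoF (D : Derivation C L L) (z : L) :
    derivativeFun (rhoF D z) = rhoF D (D z) := by
  ext n
  refine (coeff_derivativeFun _ _).trans ?_
  rw [mul_comm, coeff_succ_rhoF]

theorem rhoF_mul (D : Derivation C L L) (z w : L) : rhoF D (z * w) = rhoF D z * rhoF D w := by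
  ext n
  induction n generalizing z w with
  | zero =>
    rw [coeff_zero_rhoF]
    rw [coeff_zero_eq_constantCoeff_apply, map_mul, ← coeff_zero_eq_constantCoeff_apply,
      ← coeff_zero_eq_constantCoeff_apply, coeff_zero_rhoF, coeff_zero_rhoF]
  | succ n ih =>
    have h1 : (n : L) + 1 ≠ 0 := by exact_mod_cast Nat.succ_ne_zero n
    apply mul_left_cancel₀ h1
    rw [coeff_succ_rhoF, coeff_succ_mul, derivativeFun_rhoF, derivativeFun_rhoF, D.leibniz,
      rhoF_add, map_add, map_add, smul_eq_mul, smul_eq_mul, ih, ih]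
    rw [mul_comm (rhoF D w), add_comm]

/-- **Taylor expansion** -/
noncomputable def rho (D : Derivation C L L) : L →+* PowerSeries L where
  toFun := rhoF D
  map_one' := by
    ext n
    rw [coeff_rhoF, coeff_one]
    rcases n with _ | n
    · simp
    · rw [Function.iterate_succ_apply, D.map_one_eq_zero, if_neg (Nat.succ_ne_zero n)]
      have : (⇑D)^[n] (0 : L) = 0 := by
        clear * -
        induction n with
        | zero => rfl
        | succ n ih => rw [Function.iterate_succ_apply, map_zero, ih]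
      rw [this, mul_zero]
  map_mul' := rhoF_mul D
  map_zero' := by
    have := rhoF_add D 0 0
    rw [add_zero] at this
    exact left_eq_add.1 this
  map_add' := rhoF_add D

theorem rho_apply (D : Derivation C L L) (z : L) : rho D z = rhoF D z := rfl

theorem coeff_rho (D : Derivation C L L) (z : L) (n : ℕ) :
    coeff n (rho D z) = ((n.factorial : ℕ) : L)⁻¹ * (⇑D)^[n] z := coeff_rhoF D z n

theorem rho_const (D : Derivation C L L) {z : L} (hz : D z = 0) : rho D z = PowerSeries.C z := by
  ext n
  rw [coeff_rho, coeff_C]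
  rcases n with _ | n
  · simp
  · rw [Function.iterate_succ_apply, hz, if_neg (Nat.succ_ne_zero n)]
    have : (⇑D)^[n] (0 : L) = 0 := by
      clear * -
      induction n with
      | zero => rfl
      | succ n ih => rw [Function.iterate_succ_apply, map_zero, ih]
    rw [this, mul_zero]

theorem rho_one (D : Derivation C L L) {z : L} (hz : D z = 1) :
    rho D z = PowerSeries.C z + PowerSeries.X := by
  ext n
  rw [coeff_rho, map_add, coeff_C, coeff_X]
  rcases n with _ | n
  · simp
  · rw [Function.iterate_succ_apply, hz, if_neg (Nat.succ_ne_zero n), zero_add]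
    rcases n with _ | n
    · simp
    · rw [Function.iterate_succ_apply, D.map_one_eq_zero, if_neg (by omega)]
      have : (⇑D)^[n] (0 : L) = 0 := by
        clear * -
        induction n with
        | zero => rfl
        | succ n ih => rw [Function.iterate_succ_apply, map_zero, ih]
      rw [this, mul_zero]

/-- power series in `X` over power series in `Y` -/
abbrev BB (L : Type*) [Field L] : Type _ := PowerSeries (PowerSeries L)

/-- the Taylor expansion in two variables -/
noncomputable def EE (Dx Dy : Derivation C L L) : L →+* BB L :=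
  (PowerSeries.map (rho Dy)).comp (rho Dx)

theorem coeff_EE (Dx Dy : Derivation C L L) (z : L) (j : ℕ) :
    coeff j (EE Dx Dy z) = rho Dy (((j.factorial : ℕ) : L)⁻¹ * (⇑Dx)^[j] z) := by
  rw [EE, RingHom.comp_apply, PowerSeries.coeff_map, coeff_rho]

theorem coeff_coeff_EE (Dx Dy : Derivation C L L) (z : L) (j i : ℕ) :
    coeff i (coeff j (EE Dx Dy z)) =
      ((i.factorial : ℕ) : L)⁻¹ * (((j.factorial : ℕ) : L)⁻¹ * (⇑Dy)^[i] ((⇑Dx)^[j] z)) := by
  rw [coeff_EE, coeff_rho, D_iter_inv_mul]

/-- iterates of commuting derivations commute -/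
theorem iter_comm {Dx Dy : Derivation C L L} (hc : ∀ z, Dx (Dy z) = Dy (Dx z)) (i j : ℕ) (z : L) :
    (⇑Dx)^[j] ((⇑Dy)^[i] z) = (⇑Dy)^[i] ((⇑Dx)^[j] z) := by
  have h : Function.Commute (⇑Dx) (⇑Dy) := hc
  exact (h.iterate_iterate j i).eq z

/-- **derivatives of the expansion** -/
theorem coeff_EE_iter {Dx Dy : Derivation C L L} (hc : ∀ z, Dx (Dy z) = Dy (Dx z)) (z : L)
    (α β j i : ℕ) :
    coeff i (coeff j (EE Dx Dy ((⇑Dx)^[α] ((⇑Dy)^[β] z)))) =
      (((j + α).descFactorial α : ℕ) : L) * (((i + β).descFactorial β : ℕ) : L) *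
        coeff (i + β) (coeff (j + α) (EE Dx Dy z)) := by
  rw [coeff_coeff_EE, coeff_coeff_EE, ← Function.iterate_add_apply, iter_comm hc,
    ← Function.iterate_add_apply]
  have h1 : ∀ n k : ℕ, (((n + k).factorial : ℕ) : L) =
      ((n.factorial : ℕ) : L) * (((n + k).descFactorial k : ℕ) : L) := by
    intro n k
    have := Nat.factorial_mul_descFactorial (Nat.le_add_left k n)
    rw [Nat.add_sub_cancel] at this
    rw [← this]; push_cast; ring
  have h2 : ∀ n : ℕ, ((n.factorial : ℕ) : L) ≠ 0 := fun n => by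
    exact_mod_cast n.factorial_ne_zero
  have h3 : ∀ n k : ℕ, (((n + k).descFactorial k : ℕ) : L) ≠ 0 := fun n k => by
    have := h1 n k
    intro h0
    rw [h0, mul_zero] at this
    exact h2 _ this
  rw [h1 i β, h1 j α]
  field_simp [h2 i, h2 j, h3 i β, h3 j α]

end Pool.Agent.TH279.Core
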